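import Pool.Agent.H82.RD.Targets4

/-!
# POW4: the number of prime factors, pointwise (MP_7ecdd4_nt)
-/

set_option autoImplicit false

namespace Pool.Agent.H48.RD

open Pool.Agent.H82.RD

theorem pf_POW4 : T_POW4 := by
  intro A ε hA hε
  have hA0 : (0 : ℝ) ≤ A := zero_le_one.trans hA
  obtain ⟨K, hK⟩ := exists_nat_ge (A ^ (1 / ε))
  refine ⟨A ^ K, one_le_pow₀ hA, fun s hs => ?_⟩
  classical
  have hstep : ∀ p ∈ s.primeFactors, A ≤ (if p < K then A else 1) * (p : ℝ) ^ ε := by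
    intro p hp
    have hp1 : (1 : ℝ) ≤ p := by exact_mod_cast (Nat.prime_of_mem_primeFactors hp).one_le
    have hp2 : (1 : ℝ) ≤ (p : ℝ) ^ ε := Real.one_le_rpow hp1 hε.le
    split_ifs with h
    · exact le_mul_of_one_le_right hA0 hp2
    · rw [one_mul]
      have h1 : (K : ℝ) ≤ p := by exact_mod_cast not_lt.1 h
      have h2 : A ^ (1 / ε) ≤ (p : ℝ) := hK.trans h1
      have h3 := Real.rpow_le_rpow (Real.rpow_nonneg hA0 _) h2 hε.le
      rwa [← Real.rpow_mul hA0, one_div, inv_mul_cancel₀ hε.ne', Real.rpow_one] at h3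
  have h1 : A ^ s.primeFactors.card ≤
      ∏ p ∈ s.primeFactors, ((if p < K then A else 1) * (p : ℝ) ^ ε) := by
    rw [← Finset.prod_const]
    exact Finset.prod_le_prod (fun _ _ => hA0) hstep
  rw [Finset.prod_mul_distrib] at h1
  have h2 : ∏ p ∈ s.primeFactors, (if p < K then A else (1 : ℝ)) ≤ A ^ K := by
    rw [Finset.prod_ite, Finset.prod_const_one, mul_one, Finset.prod_const]
    apply pow_le_pow_right₀ hA
    have h3 : s.primeFactors.filter (fun p => p < K) ⊆ Finset.range K := by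
      intro p hp
      rw [Finset.mem_filter] at hp
      exact Finset.mem_range.2 hp.2
    simpa using Finset.card_le_card h3
  have h3 : ∏ p ∈ s.primeFactors, (p : ℝ) ^ ε ≤ (s : ℝ) ^ ε := by
    rw [Real.finsetProd_rpow _ _ (fun p _ => Nat.cast_nonneg p)]
    apply Real.rpow_le_rpow (Finset.prod_nonneg fun p _ => Nat.cast_nonneg p) _ hε.le
    have h4 : ∏ p ∈ s.primeFactors, p ≤ s := Nat.le_of_dvd hs (Nat.prod_primeFactors_dvd s)
    have h5 : ((∏ p ∈ s.primeFactors, p : ℕ) : ℝ) ≤ (s : ℝ) := Nat.cast_le.2 h4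
    rwa [Nat.cast_prod] at h5
  refine h1.trans (mul_le_mul h2 h3 ?_ (pow_nonneg hA0 _))
  exact Finset.prod_nonneg fun p _ => Real.rpow_nonneg (Nat.cast_nonneg p) _

end Pool.Agent.H48.RD
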