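import Pool.Agent.H91.RD.Targets2
import Pool.Agent.H59.RD.P1B

/-!
# MP_609556_an: module P1SB (sub-barrier over a stable base)
-/

open MeasureTheory Set Filter Topology Metric

namespace Pool.Agent.H48.RD

open Pool.Agent.H91.RD Pool.Agent.H59.RD

theorem sb_key {N : ℕ} {f F φ : ℝ → ℝ} {c lam K k μ η0 θ β C : ℝ} (hN : 1 ≤ N)
    (h : Hyp f c lam φ K k μ η0 θ) (P : FrP c lam β C φ)
    (hF1 : ∀ a b, |F a - F b| ≤ K * |a - b|) (hF2 : ∀ s ∈ Icc (0 : ℝ) 1, F s = f s)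
    (hF3 : ∀ s t, -η0 ≤ s → s ≤ t → t ≤ η0 → F t - F s ≤ -(μ * (t - s)))
    {z0 κ G B q0 y0 : ℝ}
    (hz0 : 0 < z0) (hz1 : φ z0 ≤ η0) (hz2 : 1 - η0 / 2 ≤ φ (-z0))
    (hκ : ∀ z ∈ Icc (-z0) z0, deriv φ z ≤ -κ)
    (hG : G = K + c) (hB0 : 0 ≤ B) (hB : B * (κ * c) = 8 * G)
    (hq1 : q0 ≤ η0 / 2)
    (hy1 : 1 ≤ y0) (hya : c / (2 * y0) ≤ μ / 4) (hyd : 8 * C * (N + 1) ≤ μ * (q0 * y0))
    (hye : ∀ y ≥ y0, C * (N + 1) * Real.exp (-(β * y / 4)) * y ≤ μ * q0 / 4)
    (hyf : 4 * z0 ≤ y0) (hyg : 4 * C * (N + 1) ≤ G * (q0 * y0))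
    {q y ρ r : ℝ} (hy : y0 ≤ y) (hq : 0 < q) (hqq : q ≤ q0) (hqy : q0 * y0 ≤ q * y)
    (hρ : y / 2 ≤ ρ) (hr : 1 ≤ r) :
    0 ≤ (-(c * (B * q / 2)) * deriv φ (r - ρ)) +
      (F (φ (r - ρ) - q) - F (φ (r - ρ))) +
      (-deriv (deriv φ) (r - ρ) * (1 / r ^ 2) +
        deriv φ (r - ρ) * (((N : ℝ) - 1) / r + 1 / r ^ 3)) - c / (2 * y) * q := by
  have hc := h.front.cpos
  have hKp := h.toLip.K0
  have hμ := h.mu0
  have hC : 1 ≤ C := P.one
  have hN' : (1 : ℝ) ≤ N := by exact_mod_cast hN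
  have hr0 : 0 < r := by linarith
  have hy0p : 0 < y0 := by linarith
  have hyp : 0 < y := by linarith
  have hy1' : 1 ≤ y := by linarith
  have hcy : c / (2 * y) ≤ μ / 4 := by
    refine le_trans ?_ hya
    apply div_le_div_of_nonneg_left hc.le (by positivity) (by linarith)
  have hcyq : c / (2 * y) * q ≤ μ / 4 * q := mul_le_mul_of_nonneg_right hcy hq.le
  have hCN : 0 ≤ C * (N + 1) := by positivity
  have hP0 : 0 ≤ -(c * (B * q / 2)) * deriv φ (r - ρ) := by
    have h1 := h.front.dec (r - ρ)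
    have h2 : 0 ≤ c * (B * q / 2) := by positivity
    exact mul_nonneg_of_nonpos_of_nonpos (by linarith) h1.le
  set z := r - ρ with hz
  have hbad := bad_bound (N := N) hN (r := r) hr (P.d1 z) (P.d2 z)
  have a1 : μ * (q0 * y0) ≤ μ * (q * y) := mul_le_mul_of_nonneg_left hqy hμ.le
  rcases le_or_gt z0 z with hR | hnR
  · -- region R
    have hφz : φ z ≤ η0 := (front_antitone h.front hR).trans hz1
    have hF : μ * q ≤ F (φ z - q) - F (φ z) := by
      have h1 := P.pos z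
      have := hF3 (φ z - q) (φ z) (by linarith) (by linarith) hφz
      have e : φ z - (φ z - q) = q := by ring
      rw [e] at this
      linarith
    have hry : y / 2 ≤ r := by
      have : r = z + ρ := by rw [hz]; ring
      linarith
    have e1 : C * (N + 1) / r ≤ μ / 2 * q := by
      rw [div_le_iff₀ hr0]
      have a2 : μ / 2 * q * (y / 2) ≤ μ / 2 * q * r :=
        mul_le_mul_of_nonneg_left hry (by positivity)
      have a3 : μ / 2 * q * (y / 2) = μ * (q * y) / 4 := by ring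
      linarith
    linarith [mul_pos hμ hq]
  rcases le_or_gt z (-z0) with hL | hnL
  · -- region L
    have hzneg : z ≤ 0 := by linarith
    have hφz : 1 - η0 / 2 ≤ φ z := hz2.trans (front_antitone h.front hL)
    have hη1 := h.eta1
    have hF : μ * q ≤ F (φ z - q) - F (φ z) := by
      have h1 := (P.lt z).le
      have h2 := P.pos z
      have := h.near1 (φ z - q) (φ z) (by linarith) (by linarith) h1
      have e : φ z - (φ z - q) = q := by ring
      rw [e] at this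
      rw [hF2 (φ z - q) ⟨by linarith, by linarith⟩, hF2 (φ z) ⟨h2.le, h1⟩]
      linarith
    rcases le_or_gt (ρ / 2) r with hr2 | hr2
    · have e1 : C * (N + 1) / r ≤ μ / 2 * q := by
        rw [div_le_iff₀ hr0]
        have a2 : μ / 2 * q * (y / 4) ≤ μ / 2 * q * r :=
          mul_le_mul_of_nonneg_left (by linarith) (by positivity)
        have a3 : μ / 2 * q * (y / 4) = μ * (q * y) / 8 := by ring
        linarith
      linarith [mul_pos hμ hq]
    · have hX := bad_bound (N := N) hN (r := r) hr (P.n1 z hzneg) (P.n2 z hzneg)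
      have hb := P.b0
      have e1 : Real.exp (β * z) ≤ Real.exp (-(β * y / 4)) := by
        apply Real.exp_le_exp.2
        have : z ≤ -(y / 4) := by rw [hz]; linarith
        have := mul_le_mul_of_nonneg_left this hb.le
        linarith
      have e2 : C * Real.exp (β * z) * (N + 1) / r ≤ C * (N + 1) * Real.exp (-(β * y / 4)) := by
        have a0 : 0 ≤ C * Real.exp (β * z) * (N + 1) := by positivity
        calc C * Real.exp (β * z) * (N + 1) / r ≤ C * Real.exp (β * z) * (N + 1) :=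
              div_le_self a0 hr
          _ = C * (N + 1) * Real.exp (β * z) := by ring
          _ ≤ _ := mul_le_mul_of_nonneg_left e1 hCN
      have e3 := hye y hy
      have hq0 : 0 < q0 := lt_of_lt_of_le hq hqq
      have e4 : μ * q0 / 4 ≤ μ * q / 4 * y := by
        have a2 : μ * q0 * 1 ≤ μ * q0 * y0 := mul_le_mul_of_nonneg_left hy1 (by positivity)
        have a3 : μ * q / 4 * y = μ * (q * y) / 4 := by ring
        linarith
      have e5 : C * (N + 1) * Real.exp (-(β * y / 4)) ≤ μ * q / 4 :=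
        le_of_mul_le_mul_right (e3.trans e4) hyp
      linarith [mul_pos hμ hq]
  · -- region M
    have hzI : z ∈ Icc (-z0) z0 := ⟨hnL.le, hnR.le⟩
    have hry : y / 4 ≤ r := by
      have : r = z + ρ := by rw [hz]; ring
      linarith
    have hF : -(K * q) ≤ F (φ z - q) - F (φ z) := by
      have := hF1 (φ z - q) (φ z)
      have e : φ z - q - φ z = -q := by ring
      rw [e, abs_neg, abs_of_pos hq] at this
      exact (abs_le.1 this).1
    have hP : 4 * q * G ≤ -(c * (B * q / 2)) * deriv φ z := by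
      have h1 := hκ z hzI
      have h2 : 0 ≤ c * (B * q / 2) := by positivity
      have h3 : c * (B * q / 2) * κ = 4 * q * G := by
        have : c * (B * q / 2) * κ = B * (κ * c) * q / 2 := by ring
        rw [this, hB]; ring
      have h4 := mul_le_mul_of_nonneg_left h1 h2
      linarith
    have hGp : 0 < G := by rw [hG]; positivity
    have e1 : C * (N + 1) / r ≤ G * q := by
      rw [div_le_iff₀ hr0]
      have a1' : G * (q0 * y0) ≤ G * (q * y) := mul_le_mul_of_nonneg_left hqy hGp.le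
      have a2 : G * q * (y / 4) ≤ G * q * r := mul_le_mul_of_nonneg_left hry (by positivity)
      have a3 : G * q * (y / 4) = G * (q * y) / 4 := by ring
      linarith
    have e2 : c / (2 * y) * q ≤ c * q := by
      apply mul_le_mul_of_nonneg_right _ hq.le
      rw [div_le_iff₀ (by linarith)]
      nlinarith
    have e3 : G * q = K * q + c * q := by rw [hG]; ring
    have e4 := mul_pos hGp hq
    linarith

/-- the choice of the constants -/
theorem sb_constants {N : ℕ} {f φ : ℝ → ℝ} {c lam K k μ η0 θ β C : ℝ}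
    (h : Hyp f c lam φ K k μ η0 θ) (F : FrP c lam β C φ) :
    ∃ z0 κ G B q0 y0 : ℝ, 0 < z0 ∧ φ z0 ≤ η0 ∧
      1 - η0 / 2 ≤ φ (-z0) ∧
      (∀ z ∈ Icc (-z0) z0, deriv φ z ≤ -κ) ∧ G = K + c ∧ 0 ≤ B ∧
      B * (κ * c) = 8 * G ∧ 0 < q0 ∧ q0 ≤ η0 / 2 ∧ B * q0 ≤ 1 / 2 ∧
      1 ≤ y0 ∧ c / (2 * y0) ≤ μ / 4 ∧
      8 * C * (N + 1) ≤ μ * (q0 * y0) ∧
      (∀ y ≥ y0, C * (N + 1) * Real.exp (-(β * y / 4)) * y ≤ μ * q0 / 4) ∧
      4 * z0 ≤ y0 ∧ 4 * C * (N + 1) ≤ G * (q0 * y0) := by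
  have hc := h.front.cpos
  have hKp := h.toLip.K0
  have hμ := h.mu0
  have hη := h.eta0
  have hb := F.b0
  have hz : ∃ z0 : ℝ, 0 < z0 ∧ φ z0 ≤ η0 ∧ 1 - η0 / 2 ≤ φ (-z0) := by
    have e1 : ∀ᶠ z in atTop, φ z < η0 := h.front.right.eventually (gt_mem_nhds hη)
    have e2 : ∀ᶠ z in atTop, 1 - η0 / 2 < φ (-z) :=
      (h.front.left.comp tendsto_neg_atTop_atBot).eventually (lt_mem_nhds (by linarith))
    obtain ⟨z, ⟨h1, h2⟩, h4⟩ := ((e1.and e2).and (eventually_gt_atTop 0)).exists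
    exact ⟨z, h4, h1.le, h2.le⟩
  obtain ⟨z0, hz0, hz1, hz2⟩ := hz
  have hκ : ∃ κ > 0, ∀ z ∈ Icc (-z0) z0, deriv φ z ≤ -κ := by
    have hcont : ContinuousOn (deriv φ) (Icc (-z0) z0) :=
      (h.front.c2.continuous_deriv (by norm_num)).continuousOn
    obtain ⟨x, hx, hmax⟩ := isCompact_Icc.exists_isMaxOn (nonempty_Icc.2 (by linarith)) hcont
    exact ⟨-deriv φ x, by linarith [h.front.dec x], fun z hz => by
      have := hmax hz
      exact (show deriv φ z ≤ deriv φ x from this).trans (by linarith)⟩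
  obtain ⟨κ, hκ0, hκ⟩ := hκ
  set G : ℝ := K + c with hG
  have hG0 : 0 < G := by positivity
  set B : ℝ := 8 * G / (κ * c) with hB
  have hB0 : 0 < B := by positivity
  have hBe : B * (κ * c) = 8 * G := by rw [hB]; field_simp
  set q0 : ℝ := min (η0 / 2) (1 / (2 * B)) with hq0
  have hq0p : 0 < q0 := by
    rw [hq0]
    exact lt_min (by positivity) (by positivity)
  have hq1 : q0 ≤ η0 / 2 := min_le_left _ _
  have hq2 : B * q0 ≤ 1 / 2 := by
    have : q0 ≤ 1 / (2 * B) := min_le_right _ _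
    calc B * q0 ≤ B * (1 / (2 * B)) := mul_le_mul_of_nonneg_left this hB0.le
      _ = 1 / 2 := by field_simp
  have t2 : ∀ᶠ y : ℝ in atTop, c / (2 * y) < μ / 4 := by
    have : Tendsto (fun y : ℝ => c / (2 * y)) atTop (𝓝 0) :=
      Tendsto.div_atTop tendsto_const_nhds (tendsto_id.const_mul_atTop (by norm_num))
    exact this.eventually (gt_mem_nhds (by positivity))
  have hlin : ∀ a b : ℝ, 0 < a → ∀ᶠ y : ℝ in atTop, b ≤ a * (q0 * y) := by
    intro a b ha
    have : Tendsto (fun y : ℝ => a * (q0 * y)) atTop atTop :=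
      (tendsto_id.const_mul_atTop hq0p).const_mul_atTop ha
    exact this.eventually (eventually_ge_atTop b)
  have t6 : ∀ᶠ y' : ℝ in atTop, ∀ y ≥ y', C * (N + 1) * Real.exp (-(β * y / 4)) * y ≤
      μ * q0 / 4 := by
    have h1 : Tendsto (fun y : ℝ => C * (N + 1) * (y * Real.exp (-(β / 4) * y))) atTop
        (𝓝 (C * (N + 1) * 0)) := by
      apply Tendsto.const_mul
      have := Real.tendsto_pow_mul_exp_neg_atTop_nhds_zero 1
      have h2 : Tendsto (fun y : ℝ => (β / 4) * y) atTop atTop :=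
        tendsto_id.const_mul_atTop (by positivity)
      have h3 := (this.comp h2).const_mul (4 / β)
      rw [mul_zero] at h3
      refine h3.congr (fun y => ?_)
      simp only [Function.comp, pow_one]
      have : -(β / 4) * y = -(β / 4 * y) := by ring
      rw [this]
      field_simp
    rw [mul_zero] at h1
    have h2 := h1.eventually (gt_mem_nhds (by positivity : 0 < μ * q0 / 4))
    rw [eventually_atTop] at h2
    obtain ⟨b, hb'⟩ := h2
    filter_upwards [eventually_ge_atTop b] with y' hy' y hy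
    have h4 := (hb' y (hy'.trans hy)).le
    calc C * (N + 1) * Real.exp (-(β * y / 4)) * y = C * (N + 1) * (y * Real.exp (-(β / 4) * y)) := by
          have : -(β * y / 4) = -(β / 4) * y := by ring
          rw [this]; ring
      _ ≤ _ := h4
  obtain ⟨y0, ⟨⟨⟨⟨⟨a2, a4⟩, a5⟩, a6⟩, a7⟩, a8⟩⟩ :=
    (((((t2.and (hlin μ (8 * C * (N + 1)) hμ)).and (hlin G (4 * C * (N + 1)) hG0)).and
      t6).and (eventually_ge_atTop 1)).and (eventually_ge_atTop (4 * z0))).exists
  exact ⟨z0, κ, G, B, q0, y0, hz0, hz1, hz2, hκ, hG, hB0.le, hBe,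
    hq0p, hq1, hq2, a7, a2.le, a4, a6, a8, a5⟩

/-- the barrier -/
noncomputable def Sc (φ : ℝ → ℝ) (c B q0 y0 τ r : ℝ) : ℝ :=
  φ (r - rt c B q0 y0 τ) - qt c q0 y0 τ

theorem hasDerivAt_Sc_r {φ : ℝ → ℝ} (hφ : ContDiff ℝ 2 φ) (c B q0 y0 τ r : ℝ) :
    HasDerivAt (Sc φ c B q0 y0 τ) (deriv φ (r - rt c B q0 y0 τ)) r := by
  have h1 : HasDerivAt (fun r => r - rt c B q0 y0 τ) 1 r := (hasDerivAt_id r).sub_const _
  have h2 : HasDerivAt φ (deriv φ (r - rt c B q0 y0 τ)) (r - rt c B q0 y0 τ) :=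
    ((hφ.differentiable (by norm_num)) _).hasDerivAt
  have h4 := (h2.comp r h1).sub_const (qt c q0 y0 τ)
  refine (show HasDerivAt (Sc φ c B q0 y0 τ) _ r from h4).congr_deriv ?_
  ring

theorem deriv_Sc {φ : ℝ → ℝ} (hφ : ContDiff ℝ 2 φ) (c B q0 y0 τ : ℝ) :
    deriv (Sc φ c B q0 y0 τ) = fun r => deriv φ (r - rt c B q0 y0 τ) :=
  funext fun r => (hasDerivAt_Sc_r hφ c B q0 y0 τ r).deriv

theorem differentiable_deriv {φ : ℝ → ℝ} (hφ : ContDiff ℝ 2 φ) : Differentiable ℝ (deriv φ) := by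
  have : ContDiff ℝ 1 (deriv φ) := by
    have h := (contDiff_succ_iff_deriv (n := 1) (f := φ) (𝕜 := ℝ)).1 (by
      have e : (1 : WithTop ℕ∞) + 1 = 2 := by norm_num
      rw [e]; exact hφ)
    exact h.2.2
  exact this.differentiable (by norm_num)

theorem deriv_deriv_Sc {φ : ℝ → ℝ} (hφ : ContDiff ℝ 2 φ) (c B q0 y0 τ r : ℝ) :
    deriv (deriv (Sc φ c B q0 y0 τ)) r = deriv (deriv φ) (r - rt c B q0 y0 τ) := by
  rw [deriv_Sc hφ]
  have h1 : HasDerivAt (fun r => r - rt c B q0 y0 τ) 1 r := (hasDerivAt_id r).sub_const _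
  have h2 : HasDerivAt (deriv φ) (deriv (deriv φ) (r - rt c B q0 y0 τ)) (r - rt c B q0 y0 τ) :=
    ((differentiable_deriv hφ) _).hasDerivAt
  have h4 := h2.comp r h1
  rw [mul_one] at h4
  exact h4.deriv

theorem hasDerivAt_Sc_t {φ : ℝ → ℝ} (hφ : ContDiff ℝ 2 φ) {c B q0 y0 τ : ℝ} (r : ℝ)
    (hY : 0 < Yt c y0 τ) :
    HasDerivAt (fun s => Sc φ c B q0 y0 s r)
      (-(c * (1 - B * qt c q0 y0 τ / 2)) * deriv φ (r - rt c B q0 y0 τ) -
        (-(c / (2 * Yt c y0 τ)) * qt c q0 y0 τ)) τ := by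
  have h1 : HasDerivAt (fun s => r - rt c B q0 y0 s) (-(c * (1 - B * qt c q0 y0 τ / 2))) τ :=
    (hasDerivAt_rt hY).const_sub r
  have h2 : HasDerivAt φ (deriv φ (r - rt c B q0 y0 τ)) (r - rt c B q0 y0 τ) :=
    ((hφ.differentiable (by norm_num)) _).hasDerivAt
  have h4 := (h2.comp τ h1).sub (hasDerivAt_qt (q0 := q0) hY)
  refine (show HasDerivAt (fun s => Sc φ c B q0 y0 s r) _ τ from h4).congr_deriv ?_
  ring

theorem growth {c y0 a τ : ℝ} (hc : 0 < c) (hy : 1 ≤ y0) (ha : 0 < a) (hτ : 0 ≤ τ) :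
    √(Yt c y0 τ) ≤ (y0 + c / a) * Real.exp (a * τ) := by
  have h1 : 1 ≤ Yt c y0 τ := hy.trans (Yt_ge hc hτ)
  have h2 : √(Yt c y0 τ) ≤ Yt c y0 τ := by
    rw [Real.sqrt_le_left (by linarith)]
    nlinarith
  refine h2.trans ?_
  have h3 : a * τ + 1 ≤ Real.exp (a * τ) := Real.add_one_le_exp _
  have h4 : 0 ≤ y0 + c / a := by positivity
  refine le_trans ?_ (mul_le_mul_of_nonneg_left h3 h4)
  unfold Yt
  have h5 : (y0 + c / a) * (a * τ + 1) = y0 + c * τ + (y0 * (a * τ) + c / a) := by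
    field_simp
    ring
  rw [h5]
  have : 0 ≤ y0 * (a * τ) + c / a := by positivity
  linarith

theorem p1sb : T_P1SB := by
  intro N f F φ c lam K k μ η0 θ β C hN h P hF1 hF2 hF3 δ c' ν hδ hc' hν
  obtain ⟨z0, κ, G, B, q0, y0, hz0, hz1, hz2, hκ, hG, hB0, hB, hq0, hq1, hq2,
    hy1, hya, hyd, hye, hyf, hyg⟩ := sb_constants (N := N) h P
  have hc := h.front.cpos
  have hlam := h.front.fast
  have hlamp : 0 < lam := by linarith
  have hφ := h.front.c2
  have hη0 := h.eta0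
  have hy0p : 0 < y0 := by linarith
  have hsy0 : 1 ≤ √y0 := Real.one_le_sqrt.2 hy1
  have hsy0p : 0 < √y0 := by linarith
  have hYp : ∀ τ ≥ 0, 0 < Yt c y0 τ := fun τ hτ => lt_of_lt_of_le hy0p (Yt_ge hc hτ)
  have hsle : ∀ τ ≥ 0, √y0 ≤ √(Yt c y0 τ) := fun τ hτ => Real.sqrt_le_sqrt (Yt_ge hc hτ)
  have hqpos : ∀ τ ≥ 0, 0 < qt c q0 y0 τ := by
    intro τ hτ
    have := hsle τ hτ
    have h2 : 0 < √(Yt c y0 τ) := by linarith
    unfold qt
    positivity
  have hqle : ∀ τ ≥ 0, qt c q0 y0 τ ≤ q0 := by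
    intro τ hτ
    have h1 := hsle τ hτ
    have h2 : 0 < √(Yt c y0 τ) := by linarith
    unfold qt
    rw [div_le_iff₀ h2]
    exact mul_le_mul_of_nonneg_left h1 hq0.le
  have hqy : ∀ τ ≥ 0, q0 * y0 ≤ qt c q0 y0 τ * Yt c y0 τ := by
    intro τ hτ
    have h1 := hsle τ hτ
    have h2 : 0 < √(Yt c y0 τ) := by linarith
    have h3 : qt c q0 y0 τ * Yt c y0 τ = q0 * (√y0 * √(Yt c y0 τ)) := by
      unfold qt
      have : Yt c y0 τ = √(Yt c y0 τ) * √(Yt c y0 τ) := (Real.mul_self_sqrt (hYp τ hτ).le).symm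
      rw [div_mul_eq_mul_div, div_eq_iff h2.ne']
      nth_rewrite 1 [this]
      ring
    rw [h3]
    apply mul_le_mul_of_nonneg_left _ hq0.le
    calc y0 = √y0 * √y0 := (Real.mul_self_sqrt hy0p.le).symm
      _ ≤ √y0 * √(Yt c y0 τ) := mul_le_mul_of_nonneg_left h1 hsy0p.le
  have hρ : ∀ τ ≥ 0, Yt c y0 τ / 2 ≤ rt c B q0 y0 τ := by
    intro τ hτ
    have h1 := hsle τ hτ
    have h2 : 0 < √(Yt c y0 τ) := by linarith
    have h3 : √(Yt c y0 τ) * √(Yt c y0 τ) = Yt c y0 τ := Real.mul_self_sqrt (hYp τ hτ).le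
    unfold rt
    have h4 : B * (q0 * √y0) * (√(Yt c y0 τ) - √y0) ≤ B * (q0 * √(Yt c y0 τ)) * √(Yt c y0 τ) := by
      apply mul_le_mul
      · exact mul_le_mul_of_nonneg_left (mul_le_mul_of_nonneg_left h1 hq0.le) hB0
      · linarith
      · linarith
      · positivity
    have h5 : B * (q0 * √(Yt c y0 τ)) * √(Yt c y0 τ) = B * q0 * Yt c y0 τ := by
      rw [← h3]
      have : √(√(Yt c y0 τ) * √(Yt c y0 τ)) = √(Yt c y0 τ) := by rw [h3]
      rw [this]
      ring
    have h6 : B * q0 * Yt c y0 τ ≤ 1 / 2 * Yt c y0 τ :=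
      mul_le_mul_of_nonneg_right hq2 (hYp τ hτ).le
    linarith
  have hρY : ∀ τ ≥ 0, rt c B q0 y0 τ ≤ Yt c y0 τ := by
    intro τ hτ
    have h1 := hsle τ hτ
    unfold rt
    have : 0 ≤ B * (q0 * √y0) * (√(Yt c y0 τ) - √y0) := mul_nonneg (by positivity) (by linarith)
    linarith
  have hY0 : Yt c y0 0 = y0 := by unfold Yt; ring
  have hr0 : rt c B q0 y0 0 = y0 := by unfold rt; rw [hY0]; ring
  have hqt0 : qt c q0 y0 0 = q0 := by
    unfold qt; rw [hY0]; field_simp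
  -- `η`
  set η : ℝ := min δ (q0 / 2) with hη
  have hηpos : 0 < η := lt_min hδ (by positivity)
  have hη1 : η ≤ q0 / 2 := min_le_right _ _
  -- `ε0`
  set ε0 : ℝ := min δ (q0 * √y0 / 2 / (y0 + c / ν)) with hε0
  have hεpos : 0 < ε0 := lt_min hδ (by positivity)
  have hε1 : ε0 * (y0 + c / ν) ≤ q0 * √y0 / 2 := by
    have : ε0 ≤ q0 * √y0 / 2 / (y0 + c / ν) := min_le_right _ _
    rwa [le_div_iff₀ (by positivity)] at this
  -- `a`
  set a : ℝ := lam * (c' - c) with ha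
  have hapos : 0 < a := mul_pos hlamp (by linarith)
  -- `Z`
  have hZ : ∃ Z : ℝ, 0 ≤ Z ∧ C * Real.exp (-(lam * Z)) * (y0 + c / a) ≤ q0 * √y0 / 2 := by
    have h1 : Tendsto (fun z : ℝ => C * Real.exp (-(lam * z)) * (y0 + c / a)) atTop
        (𝓝 (C * 0 * (y0 + c / a))) := by
      apply Tendsto.mul_const
      apply Tendsto.const_mul
      apply Real.tendsto_exp_neg_atTop_nhds_zero.comp
      exact tendsto_id.const_mul_atTop hlamp
    rw [mul_zero, zero_mul] at h1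
    have h2 := h1.eventually (gt_mem_nhds (by positivity : 0 < q0 * √y0 / 2))
    obtain ⟨Z, h3, h4⟩ := (h2.and (eventually_ge_atTop 0)).exists
    exact ⟨Z, h4, h3.le⟩
  obtain ⟨Z, hZ0, hZ⟩ := hZ
  -- `Z'`
  have hZ' : ∃ Z' : ℝ, 0 ≤ Z' ∧ 1 - η / 2 ≤ φ (-Z') := by
    have e2 : ∀ᶠ z in atTop, 1 - η / 2 < φ (-z) :=
      (h.front.left.comp tendsto_neg_atTop_atBot).eventually (lt_mem_nhds (by linarith))
    obtain ⟨z, h1, h2⟩ := (e2.and (eventually_ge_atTop 0)).exists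
    exact ⟨z, h2, h1.le⟩
  obtain ⟨Z', hZ'0, hZ'⟩ := hZ'
  -- `s0`
  have hs0 : ∃ s0 : ℝ, 1 ≤ s0 ∧ ∀ s ≥ s0, qt c q0 y0 s ≤ η / 2 := by
    have h1 : Tendsto (fun s : ℝ => qt c q0 y0 s) atTop (𝓝 0) := by
      unfold qt Yt
      apply Tendsto.div_atTop tendsto_const_nhds
      apply Real.tendsto_sqrt_atTop.comp
      apply tendsto_atTop_add_const_left
      exact tendsto_id.const_mul_atTop hc
    have h2 := h1.eventually (gt_mem_nhds (by positivity : 0 < η / 2))
    rw [eventually_atTop] at h2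
    obtain ⟨b, hb⟩ := h2
    exact ⟨max b 1, le_max_right _ _, fun s hs => (hb s ((le_max_left _ _).trans hs)).le⟩
  obtain ⟨s0, hs01, hs0⟩ := hs0
  refine ⟨η, ε0, y0 + Z, B * (q0 * √y0) * √c + Z' + 1, s0, Sc φ c B q0 y0, hηpos, min_le_left _ _,
    hεpos, min_le_left _ _, by linarith, ?_, hs01, ?_, ?_, ?_, ?_, ?_, ?_, ?_, ?_⟩
  · have : 0 ≤ B * (q0 * √y0) * √c := by positivity
    linarith
  · -- continuity
    have hYc : Continuous fun p : ℝ × ℝ => √(Yt c y0 p.1) := by unfold Yt; fun_prop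
    have hrc : Continuous fun p : ℝ × ℝ => p.2 - rt c B q0 y0 p.1 := by unfold rt Yt; fun_prop
    have hqc : ContinuousOn (fun p : ℝ × ℝ => qt c q0 y0 p.1) (Ici 0 ×ˢ univ) := by
      unfold qt
      apply ContinuousOn.div continuousOn_const hYc.continuousOn
      intro p hp
      have := hsle p.1 hp.1
      linarith
    unfold Sc
    exact (hφ.continuous.comp hrc).continuousOn.sub hqc
  · intro τ _
    unfold Sc
    exact (hφ.comp (contDiff_id.sub contDiff_const)).sub contDiff_const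
  · intro τ hτ r
    exact (hasDerivAt_Sc_t hφ r (hYp τ hτ)).differentiableAt
  · intro τ hτ r
    have h1 := P.lt (r - rt c B q0 y0 τ)
    have h1' := P.pos (r - rt c B q0 y0 τ)
    have h2 := hqpos τ hτ
    have h3 := hqle τ hτ
    unfold Sc
    constructor
    · linarith
    · linarith
  · intro τ hτ r hr
    have hk := sb_key (N := N) hN h P hF1 hF2 hF3 hz0 hz1 hz2 hκ hG hB0 hB hq1 hy1 hya
      hyd hye hyf hyg (Yt_ge hc hτ) (hqpos τ hτ) (hqle τ hτ) (hqy τ hτ) (hρ τ hτ) hr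
    rw [(hasDerivAt_Sc_t hφ r (hYp τ hτ)).deriv]
    unfold radL
    rw [deriv_deriv_Sc hφ, (hasDerivAt_Sc_r hφ c B q0 y0 τ r).deriv, one_pow]
    have he := h.front.eqn (r - rt c B q0 y0 τ)
    have hFf := hF2 (φ (r - rt c B q0 y0 τ)) ⟨(P.pos _).le, (P.lt _).le⟩
    rw [← hFf] at he
    unfold Sc
    refine le_of_sub_nonneg (hk.trans (le_of_eq ?_))
    linear_combination (-1 : ℝ) * he
  · intro r
    unfold Sc
    rw [hr0, hqt0]
    have h1 := (P.lt (r - y0)).le
    linarith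
  · intro τ hτ r hr
    have h1 : Z + (c' - c) * τ ≤ r - rt c B q0 y0 τ := by
      have h2 := hρY τ hτ
      have h3 : Yt c y0 τ = y0 + c * τ := rfl
      linarith
    have h4 : 0 ≤ (c' - c) * τ := mul_nonneg (by linarith) hτ
    have h5 := P.p0 (r - rt c B q0 y0 τ) (by linarith)
    have h6 : Real.exp (-(lam * (r - rt c B q0 y0 τ))) ≤
        Real.exp (-(lam * Z)) * Real.exp (-(a * τ)) := by
      rw [← Real.exp_add]
      apply Real.exp_le_exp.2
      have := mul_le_mul_of_nonneg_left h1 hlamp.le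
      have h7 : lam * (Z + (c' - c) * τ) = lam * Z + a * τ := by rw [ha]; ring
      linarith
    have hs : 0 < √(Yt c y0 τ) := Real.sqrt_pos.2 (hYp τ hτ)
    have g1 := growth hc hy1 hapos hτ
    have g2 := growth hc hy1 hν hτ
    have hC : 0 < C := by linarith [P.one]
    -- `φ ≤ q / 2`
    have h7 : φ (r - rt c B q0 y0 τ) ≤ qt c q0 y0 τ / 2 := by
      refine h5.trans ((mul_le_mul_of_nonneg_left h6 hC.le).trans ?_)
      unfold qt
      rw [le_div_iff₀ (by norm_num : (0 : ℝ) < 2), le_div_iff₀ hs]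
      have e1 : C * (Real.exp (-(lam * Z)) * Real.exp (-(a * τ))) * 2 * √(Yt c y0 τ) ≤
          C * (Real.exp (-(lam * Z)) * Real.exp (-(a * τ))) * 2 *
            ((y0 + c / a) * Real.exp (a * τ)) := mul_le_mul_of_nonneg_left g1 (by positivity)
      refine e1.trans ?_
      have e2 : C * (Real.exp (-(lam * Z)) * Real.exp (-(a * τ))) * 2 *
          ((y0 + c / a) * Real.exp (a * τ)) =
          2 * (C * Real.exp (-(lam * Z)) * (y0 + c / a)) *
            (Real.exp (-(a * τ)) * Real.exp (a * τ)) := by ring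
      rw [e2, ← Real.exp_add, neg_add_cancel, Real.exp_zero, mul_one]
      linarith
    have h8 : ε0 * Real.exp (-(ν * τ)) ≤ qt c q0 y0 τ / 2 := by
      unfold qt
      rw [le_div_iff₀ (by norm_num : (0 : ℝ) < 2), le_div_iff₀ hs]
      have e1 : ε0 * Real.exp (-(ν * τ)) * 2 * √(Yt c y0 τ) ≤
          ε0 * Real.exp (-(ν * τ)) * 2 * ((y0 + c / ν) * Real.exp (ν * τ)) :=
        mul_le_mul_of_nonneg_left g2 (by positivity)
      refine e1.trans ?_
      have e2 : ε0 * Real.exp (-(ν * τ)) * 2 * ((y0 + c / ν) * Real.exp (ν * τ)) =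
          2 * (ε0 * (y0 + c / ν)) * (Real.exp (-(ν * τ)) * Real.exp (ν * τ)) := by ring
      rw [e2, ← Real.exp_add, neg_add_cancel, Real.exp_zero, mul_one]
      linarith
    unfold Sc
    linarith
  · intro s hs r hr
    have hs1 : 1 ≤ s := hs01.trans hs
    have hsp : 0 ≤ s := by linarith
    have hss : 1 ≤ √s := Real.one_le_sqrt.2 hs1
    have e1 : √(Yt c y0 s) - √y0 ≤ √c * √s := by
      have h0 : √(Yt c y0 s) ≤ √y0 + √c * √s := by
        rw [Real.sqrt_le_left (by positivity)]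
        have a1 := Real.sq_sqrt hy0p.le
        have a2 := Real.sq_sqrt hc.le
        have a3 := Real.sq_sqrt hsp
        have a4 : (√y0 + √c * √s) ^ 2 = √y0 ^ 2 + 2 * (√y0 * (√c * √s)) + √c ^ 2 * √s ^ 2 := by ring
        rw [a4, a1, a2, a3]
        unfold Yt
        have : 0 ≤ √y0 * (√c * √s) := by positivity
        linarith
      linarith
    have e2 : B * (q0 * √y0) * (√(Yt c y0 s) - √y0) ≤ B * (q0 * √y0) * (√c * √s) :=
      mul_le_mul_of_nonneg_left e1 (by positivity)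
    have e3 : r - rt c B q0 y0 s ≤ -Z' := by
      unfold rt
      have e4 : Yt c y0 s = y0 + c * s := rfl
      have e5 : (B * (q0 * √y0) * √c + Z' + 1) * √s =
        B * (q0 * √y0) * (√c * √s) + (Z' + 1) * √s := by ring
      have e6 : (Z' + 1) * 1 ≤ (Z' + 1) * √s := mul_le_mul_of_nonneg_left hss (by linarith)
      rw [e5] at hr
      nth_rewrite 1 [e4]
      linarith
    have h1 := front_antitone h.front e3
    have h2 := hs0 s hs
    unfold Sc
    linarith

end Pool.Agent.H48.RD
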