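import Pool.Agent.H91.RD.Targets2

/-!
# MP_609556_an: module PROF (a slower profile which is a strict supersolution)
-/

open MeasureTheory Set Filter Topology Metric

namespace Pool.Agent.H48.RD

open Pool.Agent.H91.RD

section Front

variable {f φ : ℝ → ℝ} {c lam : ℝ}

theorem fr_diff (h : Front f c lam φ) : Differentiable ℝ φ :=
  h.c2.differentiable (by norm_num)

theorem fr_anti (h : Front f c lam φ) : StrictAnti φ := strictAnti_of_deriv_neg h.dec

theorem fr_pos (h : Front f c lam φ) (z : ℝ) : 0 < φ z := by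
  have h1 : 0 ≤ φ (z + 1) := by
    refine le_of_tendsto h.right ?_
    filter_upwards [eventually_ge_atTop (z + 1)] with y hy
    exact (fr_anti h).antitone hy
  exact lt_of_le_of_lt h1 (fr_anti h (by linarith))

theorem fr_lt (h : Front f c lam φ) (z : ℝ) : φ z < 1 := by
  have h1 : φ (z - 1) ≤ 1 := by
    refine ge_of_tendsto h.left ?_
    filter_upwards [eventually_le_atBot (z - 1)] with y hy
    exact (fr_anti h).antitone hy
  exact lt_of_lt_of_le (fr_anti h (by linarith)) h1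

theorem fr_diff2 (h : Front f c lam φ) : Differentiable ℝ (deriv φ) := by
  have : ContDiff ℝ 1 (deriv φ) := by
    have h := (contDiff_succ_iff_deriv (n := 1) (f := φ) (𝕜 := ℝ)).1 (by
      have e : (1 : WithTop ℕ∞) + 1 = 2 := by norm_num
      rw [e]; exact h.c2)
    exact h.2.2
  exact this.differentiable (by norm_num)

theorem fr_d1 (h : Front f c lam φ) (z : ℝ) : HasDerivAt φ (deriv φ z) z := (fr_diff h z).hasDerivAt

theorem fr_d2 (h : Front f c lam φ) (z : ℝ) :
    HasDerivAt (deriv φ) (-(c * deriv φ z) - f (φ z)) z := by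
  have h1 := (fr_diff2 h z).hasDerivAt
  refine h1.congr_deriv ?_
  have := h.eqn z
  linarith

theorem exp_d (a z : ℝ) : HasDerivAt (fun z => Real.exp (a * z)) (a * Real.exp (a * z)) z := by
  have h1 : HasDerivAt (fun z : ℝ => a * z) a z := by simpa using (hasDerivAt_id z).const_mul a
  have := h1.exp
  rwa [mul_comm] at this

end Front

variable {f φ : ℝ → ℝ} {c lam K k μ η0 θ : ℝ}

/-- fast decay: `-φ' ≥ (c/2) φ` near `+∞` -/
theorem pbig (h : Hyp f c lam φ K k μ η0 θ) {z0 : ℝ} (hz0 : φ z0 ≤ η0) {z1 : ℝ} (hz1 : z0 ≤ z1) :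
    c / 2 * φ z1 ≤ -deriv φ z1 := by
  have hc := h.front.cpos
  have hF := h.front
  set W : ℝ → ℝ := fun z => Real.exp (c / 2 * z) * (deriv φ z + c / 2 * φ z) with hW
  set Ez : ℝ → ℝ := fun z => Real.exp (c / 2 * z) * φ z with hEz
  have dE : ∀ z, HasDerivAt Ez (W z) z := by
    intro z
    refine ((exp_d (c / 2) z).mul (fr_d1 hF z)).congr_deriv ?_
    simp only [hW]
    ring
  have dW : ∀ z, HasDerivAt W (Real.exp (c / 2 * z) * (c ^ 2 / 4 * φ z - f (φ z))) z := by
    intro z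
    refine ((exp_d (c / 2) z).mul ((fr_d2 hF z).add ((fr_d1 hF z).const_mul (c / 2)))).congr_deriv ?_
    simp only [Pi.add_apply]
    ring
  have hmono : MonotoneOn W (Ici z0) := by
    apply monotoneOn_of_deriv_nonneg (convex_Ici z0)
    · exact fun z _ => (dW z).continuousAt.continuousWithinAt
    · exact fun z _ => (dW z).differentiableAt.differentiableWithinAt
    · intro z hz
      rw [interior_Ici, mem_Ioi] at hz
      rw [(dW z).deriv]
      have h1 : φ z ≤ η0 := ((fr_anti hF).antitone hz.le).trans hz0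
      have h2 := h.near0 0 (φ z) le_rfl (fr_pos hF z).le h1
      rw [h.toLip.f0, sub_zero, sub_zero] at h2
      have h3 : k * φ z ≤ c ^ 2 / 4 * φ z :=
        mul_le_mul_of_nonneg_right (by linarith [h.kc]) (fr_pos hF z).le
      exact mul_nonneg (Real.exp_pos _).le (by linarith)
  by_contra hno
  push Not at hno
  have hδ : 0 < W z1 := mul_pos (Real.exp_pos _) (by linarith)
  set δ := W z1 with hδdef
  have hmono2 : MonotoneOn (fun z => Ez z - δ * z) (Ici z1) := by
    have dd : ∀ z, HasDerivAt (fun z => Ez z - δ * z) (W z - δ) z := by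
      intro z
      have := (dE z).sub ((hasDerivAt_id z).const_mul δ)
      refine this.congr_deriv ?_
      ring
    apply monotoneOn_of_deriv_nonneg (convex_Ici z1)
    · exact fun z _ => (dd z).continuousAt.continuousWithinAt
    · exact fun z _ => (dd z).differentiableAt.differentiableWithinAt
    · intro z hz
      rw [interior_Ici, mem_Ioi] at hz
      rw [(dd z).deriv]
      have := hmono hz1 (mem_Ici.2 (hz1.trans hz.le)) hz.le
      linarith
  obtain ⟨C0, hC0⟩ := hF.decay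
  have hfast := hF.fast
  have hC0p : 0 < C0 := by
    have h1 := hC0 0
    rw [mul_zero, Real.exp_zero, mul_one] at h1
    exact lt_of_lt_of_le (fr_pos hF 0) h1
  have hbd : ∀ z ≥ z1, Ez z ≤ C0 * Real.exp (-(lam - c / 2) * z1) := by
    intro z hz
    have h1 : Ez z ≤ Real.exp (c / 2 * z) * (C0 * Real.exp (-lam * z)) :=
      mul_le_mul_of_nonneg_left (hC0 z) (Real.exp_pos _).le
    refine h1.trans ?_
    have h2 : Real.exp (c / 2 * z) * (C0 * Real.exp (-lam * z)) =
        C0 * Real.exp (-(lam - c / 2) * z) := by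
      rw [mul_left_comm, ← Real.exp_add]
      congr 2
      ring
    rw [h2]
    apply mul_le_mul_of_nonneg_left _ hC0p.le
    apply Real.exp_le_exp.2
    nlinarith
  set M := C0 * Real.exp (-(lam - c / 2) * z1) with hM
  have hMp : 0 < M := by positivity
  have hz : z1 ≤ z1 + (M + 1) / δ := by
    have : 0 ≤ (M + 1) / δ := by positivity
    linarith
  have h1 := hmono2 (mem_Ici.2 le_rfl) (mem_Ici.2 hz) hz
  have h2 := hbd _ hz
  simp only at h1
  have h3 : 0 < Ez z1 := mul_pos (Real.exp_pos _) (fr_pos hF z1)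
  have h4 : δ * (z1 + (M + 1) / δ) = δ * z1 + (M + 1) := by
    field_simp
  rw [h4] at h1
  linarith

/-- `-φ' ≤ Q φ` -/
theorem psmall (h : Hyp f c lam φ K k μ η0 θ) (z1 : ℝ) :
    -deriv φ z1 ≤ (c + K + 1) * φ z1 := by
  have hc := h.front.cpos
  have hK := h.toLip.K0
  have hF := h.front
  set V : ℝ → ℝ := fun z => Real.exp (-(K + 1) * z) * (deriv φ z + (c + K + 1) * φ z) with hV
  have dV : ∀ z, HasDerivAt V (-(Real.exp (-(K + 1) * z) *
      (f (φ z) + (c + K + 1) * (K + 1) * φ z))) z := by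
    intro z
    refine ((exp_d (-(K + 1)) z).mul
      ((fr_d2 hF z).add ((fr_d1 hF z).const_mul (c + K + 1)))).congr_deriv ?_
    simp only [Pi.add_apply]
    ring
  have hanti : Antitone V := by
    apply antitone_of_deriv_nonpos (fun z => (dV z).differentiableAt)
    intro z
    rw [(dV z).deriv]
    have h1 := h.toLip.lip (φ z) 0
    rw [h.toLip.f0, sub_zero, sub_zero, abs_of_pos (fr_pos hF z)] at h1
    have h2 := (abs_le.1 h1).1
    have h3 : K * φ z ≤ (c + K + 1) * (K + 1) * φ z :=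
      mul_le_mul_of_nonneg_right (by nlinarith) (fr_pos hF z).le
    have h4 : 0 ≤ Real.exp (-(K + 1) * z) * (f (φ z) + (c + K + 1) * (K + 1) * φ z) :=
      mul_nonneg (Real.exp_pos _).le (by linarith)
    linarith
  by_contra hno
  push Not at hno
  have hneg : V z1 < 0 := mul_neg_of_pos_of_neg (Real.exp_pos _) (by linarith)
  set δ := -(deriv φ z1 + (c + K + 1) * φ z1) with hδ
  have hδp : 0 < δ := by rw [hδ]; linarith
  have hd : ∀ z ≥ z1, deriv φ z ≤ -δ := by
    intro z hz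
    have h1 := hanti hz
    simp only [hV] at h1
    have h2 : Real.exp (-(K + 1) * z1) = Real.exp (-(K + 1) * z) * Real.exp ((K + 1) * (z - z1)) := by
      rw [← Real.exp_add]; congr 1; ring
    rw [h2, mul_assoc] at h1
    have h3 := le_of_mul_le_mul_left h1 (Real.exp_pos _)
    have h4 : 1 ≤ Real.exp ((K + 1) * (z - z1)) := by
      apply Real.one_le_exp
      exact mul_nonneg (by linarith) (by linarith)
    have h5 : Real.exp ((K + 1) * (z - z1)) * (deriv φ z1 + (c + K + 1) * φ z1) ≤ -δ := by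
      have : deriv φ z1 + (c + K + 1) * φ z1 = -δ := by rw [hδ]; ring
      rw [this]
      nlinarith
    have h6 : 0 < (c + K + 1) * φ z := mul_pos (by linarith) (fr_pos hF z)
    linarith
  have hmono : AntitoneOn (fun z => φ z + δ * z) (Ici z1) := by
    have dd : ∀ z, HasDerivAt (fun z => φ z + δ * z) (deriv φ z + δ) z := by
      intro z
      have := (fr_d1 hF z).add ((hasDerivAt_id z).const_mul δ)
      refine this.congr_deriv ?_
      ring
    apply antitoneOn_of_deriv_nonpos (convex_Ici z1)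
    · exact fun z _ => (dd z).continuousAt.continuousWithinAt
    · exact fun z _ => (dd z).differentiableAt.differentiableWithinAt
    · intro z hz
      rw [interior_Ici, mem_Ioi] at hz
      rw [(dd z).deriv]
      have := hd z hz.le
      linarith
  have hz : z1 ≤ z1 + 1 / δ := by
    have : 0 ≤ 1 / δ := by positivity
    linarith
  have h1 := hmono (mem_Ici.2 le_rfl) (mem_Ici.2 hz) hz
  simp only at h1
  have h2 : δ * (z1 + 1 / δ) = δ * z1 + 1 := by field_simp
  rw [h2] at h1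
  have h3 := fr_pos hF (z1 + 1 / δ)
  have h4 := fr_lt hF z1
  linarith

/-- lower exponential bound -/
theorem fr_lower (h : Hyp f c lam φ K k μ η0 θ) {a b : ℝ} (hab : a ≤ b) :
    φ a * Real.exp (-((c + K + 1) * (b - a))) ≤ φ b := by
  have hF := h.front
  set V : ℝ → ℝ := fun z => Real.exp ((c + K + 1) * z) * φ z with hV
  have dV : ∀ z, HasDerivAt V (Real.exp ((c + K + 1) * z) *
      (deriv φ z + (c + K + 1) * φ z)) z := by
    intro z
    refine ((exp_d (c + K + 1) z).mul (fr_d1 hF z)).congr_deriv ?_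
    ring
  have hmono : Monotone V := by
    apply monotone_of_deriv_nonneg (fun z => (dV z).differentiableAt)
    intro z
    rw [(dV z).deriv]
    exact mul_nonneg (Real.exp_pos _).le (by linarith [psmall h z])
  have h1 := hmono hab
  simp only [hV] at h1
  have h2 : Real.exp ((c + K + 1) * a) = Real.exp ((c + K + 1) * b) *
      Real.exp (-((c + K + 1) * (b - a))) := by
    rw [← Real.exp_add]; congr 1; ring
  rw [h2, mul_assoc] at h1
  have h3 := le_of_mul_le_mul_left h1 (Real.exp_pos _)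
  linarith

/-- the algebra of the supersolution inequality -/
theorem prof_alg {c ε κ0 p fz h h' m F1 H : ℝ} (hε : 0 < ε) (hp : 0 < p)
    (hκ : 0 < κ0) (hh : 0 ≤ h) (hH : h ≤ H) (hm : m = 1 - ε * h) (hm0 : 1 / 2 ≤ m) (hm1 : m ≤ 1)
    (hc : 0 < c)
    (hf : |fz| ≤ F1 * p) (hεH : ε * H ^ 2 * (c + F1) ≤ κ0 / 4)
    (hkey : κ0 * p ≤ h * (c * p - 2 * fz) - p * h') :
    ε * κ0 / 2 * |-(p * m)| ≤ -((c - ε * κ0 / 4) * -(p * m)) -
      ((c * p - fz) * m ^ 2 - p * (-(ε * h'))) - fz := by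
  have hF1 : 0 ≤ F1 := by
    by_contra hno
    push Not at hno
    have := (abs_nonneg fz).trans hf
    nlinarith
  have e1 : |-(p * m)| = p * m := by
    rw [abs_neg, abs_of_pos (mul_pos hp (by linarith))]
  rw [e1]
  have e2 : -((c - ε * κ0 / 4) * -(p * m)) - ((c * p - fz) * m ^ 2 - p * (-(ε * h'))) - fz =
      ε * ((h * (c * p - 2 * fz) - p * h') - p * κ0 / 4 * m - ε * h ^ 2 * (c * p - fz)) := by
    rw [hm]; ring
  rw [e2]
  have e3 : p * κ0 / 4 * m ≤ p * κ0 / 4 := by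
    have : 0 ≤ p * κ0 / 4 := by positivity
    nlinarith
  have e4 : ε * h ^ 2 * (c * p - fz) ≤ κ0 / 4 * p := by
    have a1 : c * p - fz ≤ (c + F1) * p := by
      have := (abs_le.1 hf).1
      linarith
    have a2 : ε * h ^ 2 * (c * p - fz) ≤ ε * h ^ 2 * ((c + F1) * p) :=
      mul_le_mul_of_nonneg_left a1 (by positivity)
    have a3 : h ^ 2 ≤ H ^ 2 := by nlinarith
    have a4 : ε * h ^ 2 * ((c + F1) * p) ≤ ε * H ^ 2 * ((c + F1) * p) := by
      apply mul_le_mul_of_nonneg_right _ (by positivity)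
      exact mul_le_mul_of_nonneg_left a3 hε.le
    have a5 : ε * H ^ 2 * ((c + F1) * p) = ε * H ^ 2 * (c + F1) * p := by ring
    have a6 : ε * H ^ 2 * (c + F1) * p ≤ κ0 / 4 * p := mul_le_mul_of_nonneg_right hεH hp.le
    linarith
  have e5 : ε * κ0 / 2 * (p * m) ≤ ε * (κ0 * p / 2) := by
    have : ε * κ0 / 2 * (p * m) = ε * (κ0 * p / 2) * m := by ring
    rw [this]
    have a1 : 0 ≤ ε * (κ0 * p / 2) := by positivity
    nlinarith
  refine e5.trans (mul_le_mul_of_nonneg_left ?_ hε.le)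
  linarith

theorem prof : T_PROF := by
  intro f φ c lam K k μ η0 θ h
  have hc := h.front.cpos
  have hK := h.toLip.K0
  have hk := h.k0
  have hkc := h.kc
  have hF := h.front
  have hfast := hF.fast
  have hlam : 0 < lam := by linarith
  -- the point where `φ = θ`
  obtain ⟨zθ, hzθ⟩ : ∃ z, φ z = θ := by
    have e1 : ∀ᶠ z in atTop, φ z < θ := hF.right.eventually (gt_mem_nhds h.th0)
    have e2 : ∀ᶠ z in atBot, θ < φ z := hF.left.eventually (lt_mem_nhds h.th1)
    obtain ⟨a, ha⟩ := e1.exists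
    obtain ⟨b, hb⟩ := e2.exists
    have := mem_range_of_exists_le_of_exists_ge (hF.c2.continuous) ⟨a, ha.le⟩ ⟨b, hb.le⟩
    exact this
  -- `z0`
  obtain ⟨z0, hz0⟩ : ∃ z, φ z ≤ η0 := by
    have e1 : ∀ᶠ z in atTop, φ z < η0 := hF.right.eventually (gt_mem_nhds h.eta0)
    obtain ⟨a, ha⟩ := e1.exists
    exact ⟨a, ha.le⟩
  have hfabs : ∀ z, |f (φ z)| ≤ K * φ z := by
    intro z
    have h1 := h.toLip.lip (φ z) 0
    rwa [h.toLip.f0, sub_zero, sub_zero, abs_of_pos (fr_pos hF z)] at h1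
  -- `F1`
  obtain ⟨F1, hF10, hF1⟩ : ∃ F1 : ℝ, 0 ≤ F1 ∧ ∀ z ≥ zθ, |f (φ z)| ≤ F1 * (-deriv φ z) := by
    have hcont : ContinuousOn (deriv φ) (Icc zθ (max z0 zθ)) :=
      (hF.c2.continuous_deriv (by norm_num)).continuousOn
    obtain ⟨x, hx, hmax⟩ := isCompact_Icc.exists_isMaxOn (nonempty_Icc.2 (le_max_right _ _)) hcont
    have hpx : 0 < -deriv φ x := by linarith [hF.dec x]
    refine ⟨max (K / (-deriv φ x)) (K * (2 / c)), le_max_of_le_left (by positivity), fun z hz => ?_⟩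
    have hpz : 0 < -deriv φ z := by linarith [hF.dec z]
    rcases le_total z (max z0 zθ) with h1 | h1
    · have h2 : deriv φ z ≤ deriv φ x := hmax ⟨hz, h1⟩
      have h3 : |f (φ z)| ≤ K := by
        have := hfabs z
        have h4 := (fr_lt hF z).le
        nlinarith
      refine h3.trans ?_
      have h4 : K ≤ K / (-deriv φ x) * (-deriv φ z) := by
        rw [div_mul_eq_mul_div, le_div_iff₀ hpx]
        exact mul_le_mul_of_nonneg_left (by linarith) hK.le
      exact h4.trans (mul_le_mul_of_nonneg_right (le_max_left _ _) hpz.le)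
    · have h2 := pbig h hz0 (show z0 ≤ z from (le_max_left _ _).trans h1)
      have h3 : φ z ≤ 2 / c * (-deriv φ z) := by
        rw [div_mul_eq_mul_div, le_div_iff₀ hc]
        linarith
      refine (hfabs z).trans ?_
      have h4 : K * φ z ≤ K * (2 / c) * (-deriv φ z) := by
        have := mul_le_mul_of_nonneg_left h3 hK.le
        linarith
      exact h4.trans (mul_le_mul_of_nonneg_right (le_max_right _ _) hpz.le)
  -- `f ≤ (2k/c) p` near `+∞`
  have hfk : ∀ z ≥ z0, f (φ z) ≤ 2 * k / c * (-deriv φ z) := by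
    intro z hz
    have h1 : φ z ≤ η0 := ((fr_anti hF).antitone hz).trans hz0
    have h2 := h.near0 0 (φ z) le_rfl (fr_pos hF z).le h1
    rw [h.toLip.f0, sub_zero, sub_zero] at h2
    have h3 := pbig h hz0 hz
    have h4 : φ z ≤ 2 / c * (-deriv φ z) := by
      rw [div_mul_eq_mul_div, le_div_iff₀ hc]
      linarith
    have h5 := mul_le_mul_of_nonneg_left h4 hk
    have h6 : k * (2 / c * (-deriv φ z)) = 2 * k / c * (-deriv φ z) := by ring
    linarith
  have hkc2 : 2 * k / c < c / 2 := by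
    rw [div_lt_div_iff₀ hc (by norm_num)]
    nlinarith
  -- constants
  set s1 : ℝ := c - 2 * (2 * k / c) with hs1
  have hs1p : 0 < s1 := by rw [hs1]; linarith
  set κ0 : ℝ := min 1 s1 with hκ0
  have hκ0p : 0 < κ0 := lt_min one_pos hs1p
  have hκ01 : κ0 ≤ 1 := min_le_left _ _
  have hκ0s : κ0 ≤ s1 := min_le_right _ _
  set Λ : ℝ := 2 * F1 + 1 with hΛ
  have hΛp : 0 < Λ := by rw [hΛ]; linarith
  set Z1 : ℝ := 2 * max (z0 - zθ) 0 with hZ1
  have hZ10 : 0 ≤ Z1 := by rw [hZ1]; positivity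
  have hZ1z : z0 ≤ zθ + Z1 / 2 := by
    rw [hZ1]
    have := le_max_left (z0 - zθ) 0
    linarith
  set H0 : ℝ := (2 * F1 + 1) * Real.exp (Λ * Z1) with hH0
  have hH0p : 0 < H0 := by positivity
  set H : ℝ := 1 + H0 with hH
  have hHp : 1 ≤ H := by rw [hH]; linarith
  -- `ε`
  obtain ⟨ε, hε, hε1, hε2, hε3, hε4, hε5⟩ : ∃ ε : ℝ, 0 < ε ∧ ε * H ≤ 1 / 2 ∧
      ε * H ^ 2 * (c + F1) ≤ κ0 / 4 ∧ ε * (Λ * H0) ≤ c / 8 ∧ c / 2 ≤ lam * (1 - ε) ∧
      ε * κ0 / 4 < c := by
    have key : ∀ a b : ℝ, 0 < a → ∀ᶠ ε : ℝ in 𝓝[>] 0, ε * b < a := by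
      intro a b ha
      have : Tendsto (fun ε : ℝ => ε * b) (𝓝[>] 0) (𝓝 (0 * b)) :=
        (tendsto_id.mul_const b).mono_left nhdsWithin_le_nhds
      rw [zero_mul] at this
      exact this.eventually (gt_mem_nhds ha)
    have h1 := key (1 / 2) H (by norm_num)
    have h2 := key (κ0 / 4) (H ^ 2 * (c + F1)) (by positivity)
    have h3 := key (c / 8) (Λ * H0) (by positivity)
    have h4 := key (lam - c / 2) lam (by linarith)
    have h5 := key c (κ0 / 4) hc
    obtain ⟨ε, ⟨⟨⟨⟨⟨e1, e2⟩, e3⟩, e4⟩, e5⟩, e6⟩⟩ :=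
      (((((h1.and h2).and h3).and h4).and h5).and self_mem_nhdsWithin).exists
    refine ⟨ε, e6, e1.le, by linarith, e3.le, by linarith, by linarith⟩
  -- the functions
  set ex : ℝ → ℝ := fun Z => Real.exp (-Λ * Z) with hex
  have exp0 : ∀ Z, 0 < ex Z := fun Z => Real.exp_pos _
  have exle : ∀ Z ≥ 0, ex Z ≤ 1 := by
    intro Z hZ
    apply Real.exp_le_one_iff.2
    nlinarith
  set ζ : ℝ → ℝ := fun Z => zθ + Z - ε * (Z + H0 / Λ * (1 - ex Z)) with hζ
  set m : ℝ → ℝ := fun Z => 1 - ε * (1 + H0 * ex Z) with hm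
  have dex : ∀ Z, HasDerivAt ex (-Λ * ex Z) Z := fun Z => exp_d (-Λ) Z
  have dζ : ∀ Z, HasDerivAt ζ (m Z) Z := by
    intro Z
    have h1 := ((hasDerivAt_id Z).const_add zθ).sub
      (((hasDerivAt_id Z).add (((dex Z).const_sub 1).const_mul (H0 / Λ))).const_mul ε)
    refine h1.congr_deriv ?_
    simp only [hm]
    field_simp
  have dm : ∀ Z, HasDerivAt m (ε * (Λ * H0 * ex Z)) Z := by
    intro Z
    have h1 := ((((dex Z).const_mul H0).const_add 1).const_mul ε).const_sub 1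
    refine h1.congr_deriv ?_
    ring
  have mge : ∀ Z ≥ 0, 1 / 2 ≤ m Z := by
    intro Z hZ
    have h1 : H0 * ex Z ≤ H0 * 1 := mul_le_mul_of_nonneg_left (exle Z hZ) hH0p.le
    have h2 : ε * (1 + H0 * ex Z) ≤ ε * H := mul_le_mul_of_nonneg_left (by linarith) hε.le
    simp only [hm]
    linarith
  have mle : ∀ Z, m Z ≤ 1 := by
    intro Z
    have h1 : 0 < H0 * ex Z := mul_pos hH0p (exp0 Z)
    have h2 : 0 < ε * (1 + H0 * ex Z) := mul_pos hε (by linarith)
    simp only [hm]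
    linarith
  have ζ0 : ζ 0 = zθ := by
    simp only [hζ, hex, mul_zero, Real.exp_zero, sub_self, add_zero, sub_zero]
  have ζge : ∀ Z ≥ 0, zθ + Z / 2 ≤ ζ Z := by
    intro Z hZ
    have h1 : 1 - ex Z ≤ Λ * Z := by
      have := Real.add_one_le_exp (-Λ * Z)
      simp only [hex]
      linarith
    have h2 : H0 / Λ * (1 - ex Z) ≤ H0 / Λ * (Λ * Z) :=
      mul_le_mul_of_nonneg_left h1 (by positivity)
    have h3 : H0 / Λ * (Λ * Z) = H0 * Z := by field_simp
    have h4 : ε * (Z + H0 / Λ * (1 - ex Z)) ≤ ε * (Z + H0 * Z) :=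
      mul_le_mul_of_nonneg_left (by linarith) hε.le
    have h5 : ε * (Z + H0 * Z) = ε * H * Z := by rw [hH]; ring
    have h6 : ε * H * Z ≤ 1 / 2 * Z := mul_le_mul_of_nonneg_right hε1 hZ
    simp only [hζ]
    linarith
  have ζle : ∀ Z ≥ 0, ζ Z ≤ zθ + Z := by
    intro Z hZ
    have h1 : 0 ≤ H0 / Λ * (1 - ex Z) := mul_nonneg (by positivity) (by linarith [exle Z hZ])
    have h2 : 0 ≤ ε * (Z + H0 / Λ * (1 - ex Z)) := mul_nonneg hε.le (by linarith)
    simp only [hζ]
    linarith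
  have ζge2 : ∀ Z ≥ 0, zθ + (1 - ε) * Z - ε * (H0 / Λ) ≤ ζ Z := by
    intro Z hZ
    have h1 : H0 / Λ * (1 - ex Z) ≤ H0 / Λ * 1 :=
      mul_le_mul_of_nonneg_left (by linarith [exp0 Z]) (by positivity)
    have h2 := mul_le_mul_of_nonneg_left h1 hε.le
    simp only [hζ]
    linarith
  set χ : ℝ → ℝ := fun Z => φ (ζ Z) with hχ
  have dχ : ∀ Z, HasDerivAt χ (deriv φ (ζ Z) * m Z) Z := fun Z => (fr_d1 hF (ζ Z)).comp Z (dζ Z)
  have dχe : deriv χ = fun Z => deriv φ (ζ Z) * m Z := funext fun Z => (dχ Z).deriv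
  have ddχ : ∀ Z, deriv (deriv χ) Z = (-(c * deriv φ (ζ Z)) - f (φ (ζ Z))) * m Z * m Z +
      deriv φ (ζ Z) * (ε * (Λ * H0 * ex Z)) := by
    intro Z
    rw [dχe]
    exact (((fr_d2 hF (ζ Z)).comp Z (dζ Z)).mul (dm Z)).deriv
  have hζc : ContDiff ℝ 2 ζ := by
    simp only [hζ, hex]
    fun_prop
  obtain ⟨C0, hC0⟩ := hF.decay
  have hC0p : 0 < C0 := by
    have h1 := hC0 0
    rw [mul_zero, Real.exp_zero, mul_one] at h1
    exact lt_of_lt_of_le (fr_pos hF 0) h1
  set Ca : ℝ := 2 * (c + F1 + ε * (Λ * H0)) with hCa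
  set Cb : ℝ := C0 * Real.exp (-(lam * (zθ - ε * (H0 / Λ)))) with hCb
  set C : ℝ := max (max 1 Ca) (max (1 / θ) Cb) with hC
  have hCge1 : 1 ≤ C := (le_max_left _ _).trans (le_max_left _ _)
  have hCa' : Ca ≤ C := (le_max_right _ _).trans (le_max_left _ _)
  have hCθ : 1 / θ ≤ C := (le_max_left _ _).trans (le_max_right _ _)
  have hCb' : Cb ≤ C := (le_max_right _ _).trans (le_max_right _ _)
  refine ⟨c - ε * κ0 / 4, ε * κ0 / 2, C, c + K + 1, Z1, χ, by linarith,
    by linarith [mul_pos hε hκ0p], by positivity, hCge1, by linarith, hZ10,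
    hF.c2.comp hζc, by simp only [hχ, ζ0, hzθ], ?_⟩
  intro Z hZ
  have hp : 0 < -deriv φ (ζ Z) := by linarith [hF.dec (ζ Z)]
  have hm0 := mge Z hZ
  have hm1 := mle Z
  have hζθ : zθ ≤ ζ Z := by
    have := ζge Z hZ
    linarith
  have hfz := hF1 (ζ Z) hζθ
  have hexZ := exp0 Z
  have hexZ1 := exle Z hZ
  set p : ℝ := -deriv φ (ζ Z) with hpdef
  have hdφ : deriv φ (ζ Z) = -p := by rw [hpdef]; ring
  set fz : ℝ := f (φ (ζ Z)) with hfzdef
  have hH0e : 0 < H0 * ex Z := mul_pos hH0p hexZ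
  have hH0e1 : H0 * ex Z ≤ H0 := by
    have := mul_le_mul_of_nonneg_left hexZ1 hH0p.le
    linarith
  have hεe : ε * (Λ * H0 * ex Z) ≤ ε * (Λ * H0) := by
    apply mul_le_mul_of_nonneg_left _ hε.le
    have := mul_le_mul_of_nonneg_left hH0e1 hΛp.le
    linarith
  have hεe0 : 0 ≤ ε * (Λ * H0 * ex Z) := by positivity
  have d1 : deriv χ Z = -(p * m Z) := by
    rw [(dχ Z).deriv, hdφ]; ring
  have d2 : deriv (deriv χ) Z = (c * p - fz) * m Z ^ 2 - p * (-(ε * (-(Λ * (H0 * ex Z))))) := by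
    rw [ddχ, hdφ]; ring
  have hkey : κ0 * p ≤ (1 + H0 * ex Z) * (c * p - 2 * fz) - p * (-(Λ * (H0 * ex Z))) := by
    rcases le_or_gt z0 (ζ Z) with h1 | h1
    · have h2 := hfk (ζ Z) h1
      have h3 : s1 * p ≤ c * p - 2 * fz := by
        have : s1 * p = c * p - 2 * (2 * k / c * p) := by rw [hs1]; ring
        linarith
      have h4 : 0 ≤ s1 * p := by positivity
      have h5 : 1 * (s1 * p) ≤ (1 + H0 * ex Z) * (c * p - 2 * fz) :=
        mul_le_mul (by linarith) h3 h4 (by linarith)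
      have h6 : κ0 * p ≤ s1 * p := mul_le_mul_of_nonneg_right hκ0s hp.le
      have h7 : 0 ≤ p * (Λ * (H0 * ex Z)) := by positivity
      linarith
    · have h2 : Z ≤ Z1 := by
        by_contra h3
        push Not at h3
        have := ζge Z hZ
        linarith
      have h3 : -(2 * F1 * p) ≤ c * p - 2 * fz := by
        have := (abs_le.1 hfz).2
        have h4 : 0 < c * p := mul_pos hc hp
        linarith
      have h4 : (1 + H0 * ex Z) * (-(2 * F1 * p)) ≤ (1 + H0 * ex Z) * (c * p - 2 * fz) :=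
        mul_le_mul_of_nonneg_left h3 (by linarith)
      have h5 : 2 * F1 + 1 ≤ H0 * ex Z := by
        rw [hH0]
        simp only [hex]
        rw [mul_assoc, ← Real.exp_add]
        have h51 : 0 ≤ Λ * (Z1 - Z) := mul_nonneg hΛp.le (by linarith)
        have : 1 ≤ Real.exp (Λ * Z1 + -Λ * Z) := by
          apply Real.one_le_exp
          linarith
        exact le_mul_of_one_le_right (by linarith) this
      have h6 : (1 + H0 * ex Z) * (-(2 * F1 * p)) - p * (-(Λ * (H0 * ex Z))) =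
          p * (H0 * ex Z - 2 * F1) := by rw [hΛ]; ring
      have h7 : p * 1 ≤ p * (H0 * ex Z - 2 * F1) := mul_le_mul_of_nonneg_left (by linarith) hp.le
      have h8 : κ0 * p ≤ 1 * p := mul_le_mul_of_nonneg_right hκ01 hp.le
      linarith
  refine ⟨?_, ?_, ?_, ?_, ?_, ?_⟩
  · rw [d1]
    have : 0 < p * m Z := mul_pos hp (by linarith)
    linarith
  · rw [d1, d2]
    exact prof_alg (h := 1 + H0 * ex Z) (h' := -(Λ * (H0 * ex Z))) (H := H) hε hp hκ0p
      (by linarith) (by rw [hH]; linarith) rfl hm0 hm1 hc hfz hε2 hkey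
  · rw [d1, d2, abs_neg, abs_of_pos (mul_pos hp (by linarith : 0 < m Z))]
    have h1 : |(c * p - fz) * m Z ^ 2| ≤ (c + F1) * p := by
      rw [abs_mul, abs_of_nonneg (by positivity : 0 ≤ m Z ^ 2)]
      have h2 : |c * p - fz| ≤ (c + F1) * p := by
        refine (abs_sub _ _).trans ?_
        rw [abs_of_pos (mul_pos hc hp)]
        linarith
      have h3 : m Z ^ 2 ≤ 1 := by nlinarith
      calc |c * p - fz| * m Z ^ 2 ≤ ((c + F1) * p) * 1 :=
            mul_le_mul h2 h3 (by positivity) (by positivity)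
        _ = _ := mul_one _
    have h2 : |p * (-(ε * (-(Λ * (H0 * ex Z)))))| ≤ p * (ε * (Λ * H0)) := by
      have e : p * (-(ε * (-(Λ * (H0 * ex Z))))) = p * (ε * (Λ * H0 * ex Z)) := by ring
      rw [e, abs_of_nonneg (mul_nonneg hp.le hεe0)]
      exact mul_le_mul_of_nonneg_left hεe hp.le
    have h3 := (abs_sub ((c * p - fz) * m Z ^ 2) (p * (-(ε * (-(Λ * (H0 * ex Z))))))).trans
      (add_le_add h1 h2)
    refine h3.trans ?_
    have h4 : (c + F1) * p + p * (ε * (Λ * H0)) = Ca * (p * (1 / 2)) := by rw [hCa]; ring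
    rw [h4]
    have h5 : 0 ≤ Ca := by rw [hCa]; positivity
    have h6 : p * (1 / 2) ≤ p * m Z := mul_le_mul_of_nonneg_left hm0 hp.le
    calc Ca * (p * (1 / 2)) ≤ Ca * (p * m Z) := mul_le_mul_of_nonneg_left h6 h5
      _ ≤ C * (p * m Z) := mul_le_mul_of_nonneg_right hCa' (mul_pos hp (by linarith)).le
  · intro hZ2
    rw [d2]
    have h1 : z0 ≤ ζ Z := by
      have := ζge Z hZ
      linarith
    have h2 := hfk (ζ Z) h1
    have h3 : c / 2 * p ≤ c * p - fz := by
      have : 2 * k / c * p ≤ c / 2 * p := mul_le_mul_of_nonneg_right hkc2.le hp.le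
      linarith
    have h4 : 1 / 4 ≤ m Z ^ 2 := by nlinarith
    have h5 : c / 2 * p * (1 / 4) ≤ (c * p - fz) * m Z ^ 2 :=
      mul_le_mul h3 h4 (by norm_num) (by linarith [mul_pos hc hp])
    have h6 : p * (ε * (Λ * H0 * ex Z)) ≤ p * (c / 8) :=
      mul_le_mul_of_nonneg_left (hεe.trans hε3) hp.le
    have h7 : p * (-(ε * (-(Λ * (H0 * ex Z))))) = p * (ε * (Λ * H0 * ex Z)) := by ring
    rw [h7]
    linarith
  · have h1 := fr_lower h hζθ
    rw [hzθ] at h1
    have h2 : Real.exp (-((c + K + 1) * Z)) ≤ Real.exp (-((c + K + 1) * (ζ Z - zθ))) := by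
      apply Real.exp_le_exp.2
      have := ζle Z hZ
      have h3 : (c + K + 1) * (ζ Z - zθ) ≤ (c + K + 1) * Z :=
        mul_le_mul_of_nonneg_left (by linarith) (by linarith)
      linarith
    have h3 : C⁻¹ ≤ θ := by
      have hθ := h.th0
      rw [inv_le_comm₀ (by linarith) hθ, ← one_div]
      exact hCθ
    calc C⁻¹ * Real.exp (-((c + K + 1) * Z)) ≤ θ * Real.exp (-((c + K + 1) * (ζ Z - zθ))) :=
          mul_le_mul h3 h2 (Real.exp_pos _).le h.th0.le
      _ ≤ χ Z := h1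
  · have h1 := hC0 (ζ Z)
    have h2 : Real.exp (-lam * ζ Z) ≤ Real.exp (-(lam * (zθ - ε * (H0 / Λ)))) *
        Real.exp (-(c / 2 * Z)) := by
      rw [← Real.exp_add]
      apply Real.exp_le_exp.2
      have h3 := mul_le_mul_of_nonneg_left (ζge2 Z hZ) hlam.le
      have h4 : c / 2 * Z ≤ lam * (1 - ε) * Z := mul_le_mul_of_nonneg_right hε4 hZ
      have h5 : lam * (zθ + (1 - ε) * Z - ε * (H0 / Λ)) =
        lam * (zθ - ε * (H0 / Λ)) + lam * (1 - ε) * Z := by ring
      linarith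
    calc χ Z ≤ C0 * Real.exp (-lam * ζ Z) := h1
      _ ≤ C0 * (Real.exp (-(lam * (zθ - ε * (H0 / Λ)))) * Real.exp (-(c / 2 * Z))) :=
        mul_le_mul_of_nonneg_left h2 hC0p.le
      _ = Cb * Real.exp (-(c / 2 * Z)) := by rw [hCb]; ring
      _ ≤ C * Real.exp (-(c / 2 * Z)) := mul_le_mul_of_nonneg_right hCb' (Real.exp_pos _).le

end Pool.Agent.H48.RD
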