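import Pool.Agent.H82.RD.Targets
import Pool.Agent.H99.RD.KPI

/-!
# ZPP: transcendence degree of a hypersurface in affine space (MP_7ecdd4_nt)
-/

set_option autoImplicit false

namespace Pool.Agent.H48.RD

open Pool.Agent.H82.RD

theorem pf_ZPP : T_ZPP := by
  intro k _ n g hg
  have hp : (Ideal.span {g} : Ideal (MvPolynomial (Fin n) k)).IsPrime :=
    (Ideal.span_singleton_prime hg.ne_zero).2 hg
  refine Pool.Agent.H99.RD.trdeg_of_height_le_one (hpp := hp) _ ?_
  have hm : Ideal.span {g} ∈ (Ideal.span {g} : Ideal (MvPolynomial (Fin n) k)).minimalPrimes := by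
    rw [Ideal.minimalPrimes_eq_subsingleton_self]
    exact rfl
  exact Ideal.height_le_one_of_isPrincipal_of_mem_minimalPrimes (Ideal.span {g})
    (Ideal.span {g}) hm

end Pool.Agent.H48.RD
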